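import Mathlib

/-!
Laminations of the circle. The disc is the Klein (projective) model of the hyperbolic plane:
the geodesic joining two ideal points is the straight chord, and hyperbolic convex hulls are
Euclidean convex hulls.
-/

set_option autoImplicit false

namespace Pool.Agent.MP_939d63_gt

open Set

/-- `g` is orientation preserving: it lifts to an increasing homeomorphism of the line commuting
with the deck translation. -/
def OrientationPreserving (g : Circle ≃ₜ Circle) : Prop :=
  ∃ F : ℝ → ℝ, Continuous F ∧ StrictMono F ∧ (∀ x, F (x + 2 * Real.pi) = F x + 2 * Real.pi) ∧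
    ∀ x, g (Circle.exp x) = Circle.exp (F x)

/-- A lamination: a nonempty set of unordered pairs of distinct points (a symmetric set of ordered
pairs off the diagonal), closed in the space of pairs of distinct points, no two of them linked. -/
def IsLamination (L : Set (Circle × Circle)) : Prop :=
  L.Nonempty ∧ (∀ p ∈ L, p.1 ≠ p.2) ∧ (∀ p ∈ L, p.swap ∈ L) ∧
    (∀ p ∈ closure L, p.1 ≠ p.2 → p ∈ L) ∧
    ∀ s t u v : ℝ, s < t → t < u → u < v → v < s + 2 * Real.pi →
      ¬ ((Circle.exp s, Circle.exp u) ∈ L ∧ (Circle.exp t, Circle.exp v) ∈ L)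

/-- The open disc minus the union of the leaves. -/
def OffLeaves (L : Set (Circle × Circle)) : Set ℂ :=
  Metric.ball 0 1 \ ⋃ p ∈ L, segment ℝ (p.1 : ℂ) (p.2 : ℂ)

/-- A gap: the closure of a connected component of the open disc minus the leaves. -/
def IsGap (L : Set (Circle × Circle)) (P : Set ℂ) : Prop :=
  ∃ z ∈ OffLeaves L, P = closure (connectedComponentIn (OffLeaves L) z)

/-- Very full: every gap is the convex hull of finitely many, at least three, ideal points. -/
def VeryFull (L : Set (Circle × Circle)) : Prop :=
  ∀ P, IsGap L P → ∃ S : Finset Circle, 3 ≤ S.card ∧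
    P = convexHull ℝ ((fun a : Circle => (a : ℂ)) '' (S : Set Circle))

/-- Loose: two different leaves with a common endpoint are sides of one gap. -/
def Loose (L : Set (Circle × Circle)) : Prop :=
  ∀ a b c : Circle, (a, b) ∈ L → (a, c) ∈ L → b ≠ c →
    ∃ P, IsGap L P ∧ (a : ℂ) ∈ P ∧ (b : ℂ) ∈ P ∧ (c : ℂ) ∈ P

end Pool.Agent.MP_939d63_gt
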